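import Mathlib

/-!
Calculus of smooth functions on `ℝ^d` in coordinates.
-/

set_option autoImplicit false

noncomputable section

namespace Oldroyd

open Set MeasureTheory
open scoped ContDiff

/-- `ℝ^d` -/
abbrev Sp (d : ℕ) := EuclideanSpace ℝ (Fin d)

/-- `i`-th partial derivative of a scalar function -/
def pd {d : ℕ} (i : Fin d) (g : Sp d → ℝ) (x : Sp d) : ℝ := fderiv ℝ g x (EuclideanSpace.single i 1)

/-- Laplacian of a scalar function -/
def lapl {d : ℕ} (g : Sp d → ℝ) (x : Sp d) : ℝ := ∑ i, pd i (pd i g) x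

/-- symmetric gradient of a vector field, `e(u)_{ij} = (∂_j u_i + ∂_i u_j)/2` -/
def symGrad {d : ℕ} (u : Sp d → Sp d) (x : Sp d) (i j : Fin d) : ℝ :=
  (pd j (fun y => u y i) x + pd i (fun y => u y j) x) / 2

/-- divergence of a vector field -/
def divg {d : ℕ} (u : Sp d → Sp d) (x : Sp d) : ℝ := ∑ i, pd i (fun y => u y i) x

variable {d : ℕ}

theorem pd_smooth {g : Sp d → ℝ} (hg : ContDiff ℝ ∞ g) (i : Fin d) : ContDiff ℝ ∞ (pd i g) := by
  unfold pd
  exact (hg.fderiv_right (m := ∞) (by simp)).clm_apply contDiff_const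

theorem pd_const_mul (c : ℝ) {g : Sp d → ℝ} (hg : ContDiff ℝ ∞ g) (i : Fin d) :
    pd i (fun x => c * g x) = fun x => c * pd i g x := by
  funext x
  unfold pd
  have h : DifferentiableAt ℝ g x := hg.differentiable (by simp) x
  rw [fderiv_const_mul h]
  simp

theorem pd_add {g h : Sp d → ℝ} (hg : ContDiff ℝ ∞ g) (hh : ContDiff ℝ ∞ h) (i : Fin d) :
    pd i (fun x => g x + h x) = fun x => pd i g x + pd i h x := by
  funext x
  unfold pd
  have h1 : DifferentiableAt ℝ g x := hg.differentiable (by simp) x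
  have h2 : DifferentiableAt ℝ h x := hh.differentiable (by simp) x
  rw [fderiv_fun_add h1 h2]
  simp

theorem pd_neg {g : Sp d → ℝ} (i : Fin d) :
    pd i (fun x => -g x) = fun x => -pd i g x := by
  funext x
  unfold pd
  rw [fderiv_fun_neg]
  simp

theorem pd_zero (i : Fin d) : pd i (fun _ : Sp d => (0:ℝ)) = fun _ => 0 := by
  funext x
  unfold pd
  simp

theorem pd_sum {ι : Type*} (s : Finset ι) (g : ι → Sp d → ℝ) (hg : ∀ k ∈ s, ContDiff ℝ ∞ (g k))
    (i : Fin d) : pd i (fun x => ∑ k ∈ s, g k x) = fun x => ∑ k ∈ s, pd i (g k) x := by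
  funext x
  unfold pd
  rw [fderiv_fun_sum (fun k hk => (hg k hk).differentiable (by simp) x)]
  simp

theorem pd_comm {g : Sp d → ℝ} (hg : ContDiff ℝ ∞ g) (i j : Fin d) :
    pd i (pd j g) = pd j (pd i g) := by
  funext x
  have h1 : ∀ v : Sp d, ∀ x, fderiv ℝ (fun y => fderiv ℝ g y v) x =
      (fderiv ℝ (fderiv ℝ g) x).flip v := by
    intro v x
    have hd : DifferentiableAt ℝ (fderiv ℝ g) x :=
      ((hg.fderiv_right (m := ∞) (by simp)).differentiable (by simp)) x
    rw [fderiv_clm_apply hd (differentiableAt_const _)]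
    simp
  unfold pd
  rw [h1, h1]
  have hs : IsSymmSndFDerivAt ℝ g x := by
    apply ContDiffAt.isSymmSndFDerivAt (n := ∞) hg.contDiffAt
    rw [minSmoothness_of_isRCLikeNormedField]
    exact WithTop.coe_le_coe.mpr (le_top : (2 : ℕ∞) ≤ ⊤)
  exact hs _ _

theorem pd_supp {g : Sp d → ℝ} {K : Set (Sp d)} (hK : IsClosed K) (h : ∀ x, x ∉ K → g x = 0)
    (i : Fin d) : ∀ x, x ∉ K → pd i g x = 0 := by
  intro x hx
  have : g =ᶠ[nhds x] fun _ => 0 := by
    filter_upwards [hK.isOpen_compl.mem_nhds hx] with y hy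
    exact h y hy
  unfold pd
  rw [this.fderiv_eq]
  simp

theorem lapl_smooth {g : Sp d → ℝ} (hg : ContDiff ℝ ∞ g) : ContDiff ℝ ∞ (lapl g) := by
  unfold lapl
  exact ContDiff.sum fun i _ => pd_smooth (pd_smooth hg i) i

theorem lapl_supp {g : Sp d → ℝ} {K : Set (Sp d)} (hK : IsClosed K) (h : ∀ x, x ∉ K → g x = 0) :
    ∀ x, x ∉ K → lapl g x = 0 := by
  intro x hx
  unfold lapl
  exact Finset.sum_eq_zero fun i _ => pd_supp hK (pd_supp hK h i) i x hx

theorem lapl_const_mul (c : ℝ) {g : Sp d → ℝ} (hg : ContDiff ℝ ∞ g) :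
    lapl (fun x => c * g x) = fun x => c * lapl g x := by
  funext x
  unfold lapl
  rw [Finset.mul_sum]
  refine Finset.sum_congr rfl fun i _ => ?_
  rw [pd_const_mul c hg, pd_const_mul c (pd_smooth hg i)]

theorem lapl_sum {ι : Type*} (s : Finset ι) (g : ι → Sp d → ℝ) (hg : ∀ k ∈ s, ContDiff ℝ ∞ (g k)) :
    lapl (fun x => ∑ k ∈ s, g k x) = fun x => ∑ k ∈ s, lapl (g k) x := by
  funext x
  unfold lapl
  rw [Finset.sum_comm]
  refine Finset.sum_congr rfl fun i _ => ?_
  rw [pd_sum s g hg, pd_sum s (fun k => pd i (g k)) (fun k hk => pd_smooth (hg k hk) i)]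

theorem lapl_pd {g : Sp d → ℝ} (hg : ContDiff ℝ ∞ g) (i : Fin d) : lapl (pd i g) = pd i (lapl g) := by
  unfold lapl
  rw [show (fun x => ∑ j, pd j (pd j g) x) = fun x => ∑ j ∈ Finset.univ, (fun j => pd j (pd j g)) j x
    from rfl]
  rw [pd_sum _ _ (fun k _ => pd_smooth (pd_smooth hg k) k)]
  funext x
  refine Finset.sum_congr rfl fun j _ => ?_
  rw [pd_comm hg j i, pd_comm (pd_smooth hg j) j i]

end Oldroyd
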