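import Pool.Agent.Helper20.Oldroyd.Calc

/-!
Definitions for the obstacle identification problem of the linearised Oldroyd model.
-/

set_option autoImplicit false

noncomputable section

namespace Oldroyd

open Set MeasureTheory
open scoped ContDiff

variable {d : ℕ}

/-- open sets with smooth boundary, given by a defining function -/
def SmoothSet (U : Set (Sp d)) : Prop :=
  ∃ ρ : Sp d → ℝ, ContDiff ℝ ∞ ρ ∧ U = {x | ρ x < 0} ∧ frontier U = {x | ρ x = 0} ∧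
    ∀ x ∈ frontier U, fderiv ℝ ρ x ≠ 0

/-- bounded connected open sets with smooth boundary -/
structure Domain (Ω : Set (Sp d)) : Prop where
  isOpen : IsOpen Ω
  bounded : Bornology.IsBounded Ω
  connected : IsConnected Ω
  smooth : SmoothSet Ω

/-- obstacles in `Ω`: simply connected smooth open sets with closure in `Ω` -/
structure Obstacle (Ω D : Set (Sp d)) : Prop where
  isOpen : IsOpen D
  simply : SimplyConnectedSpace D
  smooth : SmoothSet D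
  sub : closure D ⊆ Ω

/-- square integrable on `Ω × (s,t)` -/
def L2Q (Ω : Set (Sp d)) (s t : ℝ) (g : ℝ → Sp d → Sp d) : Prop :=
  MemLp (fun z : ℝ × Sp d => g z.1 z.2) 2 ((volume.restrict (Ioo s t)).prod (volume.restrict Ω))

/-- `g` is the time derivative of `f` on `Ω × (0,T)`, in integral form -/
def TimeDeriv (Ω : Set (Sp d)) (T : ℝ) (f g : ℝ → Sp d → Sp d) : Prop :=
  ∀ x ∈ Ω, ∀ s t, 0 ≤ s → s ≤ t → t ≤ T →
    IntervalIntegrable (fun r => g r x) volume s t ∧ f t x - f s x = ∫ r in s..t, g r x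

/-- `f₀ ∈ L²(Ω)` and `f₀` is not almost everywhere `0` on `Ω` -/
def L2Nonzero (Ω : Set (Sp d)) (f₀ : Sp d → Sp d) : Prop :=
  MemLp f₀ 2 (volume.restrict Ω) ∧ ¬ ∀ᵐ x ∂(volume.restrict Ω), f₀ x = 0

/-- the hypotheses on the source `f`, with `m = 1`, `a₁ = 0`, `a₂ = 1` and `r₁ = 0`:
`f` and its time derivative `g` are square integrable on `Ω × (0,T)`, `g = 0` for `t₀ < t < t₁`,
`g = f₀ + r₂` for `t₁ < t < t₂`, and `f₀`, `r₂` vanish on `D₁` and `D₂` -/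
structure Source (Ω D₁ D₂ : Set (Sp d)) (T t₀ t₁ t₂ : ℝ) (f g r₂ : ℝ → Sp d → Sp d)
    (f₀ : Sp d → Sp d) : Prop where
  f_L2 : L2Q Ω 0 T f
  g_L2 : L2Q Ω 0 T g
  deriv : TimeDeriv Ω T f g
  before : ∀ t ∈ Ioo t₀ t₁, ∀ x ∈ Ω, g t x = 0
  after : ∀ t ∈ Ioo t₁ t₂, ∀ x ∈ Ω, g t x = f₀ x + r₂ t x
  f0_L2 : L2Nonzero Ω f₀
  r2_L2 : L2Q Ω t₁ t₂ r₂
  vanish : ∀ x ∈ D₁ ∪ D₂, f₀ x = 0 ∧ ∀ t, r₂ t x = 0

/-- the Newtonian stress applied to the vector `n`: `σ(u,p) n = 2ν e(u) n - p n` -/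
def stress (ν : ℝ) (u : Sp d → Sp d) (p : Sp d → ℝ) (x n : Sp d) (i : Fin d) : ℝ :=
  2 * ν * ∑ j, symGrad u x i j * n j - p x * n i

/-- right side of the momentum equation: `f_i - ∂_i p + ν Δu_i + (div τ)_i` -/
def momRHS (ν : ℝ) (f u : Sp d → Sp d) (p : Sp d → ℝ) (τ : Sp d → Fin d → Fin d → ℝ) (x : Sp d)
    (i : Fin d) : ℝ :=
  f x i - pd i p x + ν * lapl (fun y => u y i) x + ∑ j, pd j (fun y => τ y i j) x

/-- classical solutions `(u, p, τ)` of the linearised Oldroyd system with source `f` on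
`(Ω \ closure D) × (0,T)` with `u = 0` on the boundaries of `Ω` and `D`; no initial conditions -/
structure IsSol (Ω D : Set (Sp d)) (T ν α β : ℝ) (f u : ℝ → Sp d → Sp d) (p : ℝ → Sp d → ℝ)
    (τ : ℝ → Sp d → Fin d → Fin d → ℝ) : Prop where
  smooth_u : ∀ t, ContDiff ℝ ∞ (u t)
  smooth_p : ∀ t, ContDiff ℝ ∞ (p t)
  smooth_τ : ∀ t i j, ContDiff ℝ ∞ (fun x => τ t x i j)
  cont_u : Continuous (fun z : ℝ × Sp d => u z.1 z.2)
  symm : ∀ t x i j, τ t x i j = τ t x j i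
  momentum : ∀ x ∈ Ω \ closure D, ∀ t ∈ Ioo 0 T, ∀ i,
    HasDerivAt (fun s => u s x i) (momRHS ν (f t) (u t) (p t) (τ t) x i) t
  div_free : ∀ x ∈ Ω \ closure D, ∀ t ∈ Ioo 0 T, divg (u t) x = 0
  elastic : ∀ x ∈ Ω \ closure D, ∀ t ∈ Ioo 0 T, ∀ i j,
    HasDerivAt (fun s => τ s x i j) (2 * β * symGrad (u t) x i j - α * τ t x i j) t
  boundary : ∀ x ∈ frontier Ω ∪ frontier D, ∀ t ∈ Ioo 0 T, u t x = 0

/-- an admissible source with `m = 1`, `a₁ = 0`, `a₂ = 1`, `r₁ = 0`, smooth compactly supported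
divergence free `f₀` and `|r₂| ≤ C (t - t₁)^N` -/
def NiceSource (Ω D₁ D₂ : Set (Sp d)) (T t₀ t₁ t₂ : ℝ) (N : ℕ) (f : ℝ → Sp d → Sp d) : Prop :=
  ∃ (g r₂ : ℝ → Sp d → Sp d) (f₀ : Sp d → Sp d), Source Ω D₁ D₂ T t₀ t₁ t₂ f g r₂ f₀ ∧
    ContDiff ℝ ∞ f₀ ∧ HasCompactSupport f₀ ∧ (∀ x, divg f₀ x = 0) ∧
    ∃ C, ∀ t ∈ Ioo t₁ t₂, ∀ x, ‖r₂ t x‖ ≤ C * (t - t₁) ^ N

/-- there are solutions for the obstacles `D₁` and `D₂` with the same source `f` and with the same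
normal stresses on `∂Ω × (0,T)` -/
def SameStress (Ω D₁ D₂ : Set (Sp d)) (T ν α β : ℝ) (f : ℝ → Sp d → Sp d) : Prop :=
  ∃ (u₁ u₂ : ℝ → Sp d → Sp d) (p₁ p₂ : ℝ → Sp d → ℝ) (τ₁ τ₂ : ℝ → Sp d → Fin d → Fin d → ℝ),
    IsSol Ω D₁ T ν α β f u₁ p₁ τ₁ ∧ IsSol Ω D₂ T ν α β f u₂ p₂ τ₂ ∧
    ∀ x ∈ frontier Ω, ∀ t ∈ Ioo 0 T, ∀ (n : Sp d) (i : Fin d),
      stress ν (u₁ t) (p₁ t) x n i = stress ν (u₂ t) (p₂ t) x n i

end Oldroyd
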