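import Mathlib

/-!
Functions of time: memory operator and iterated integrals.
-/

set_option autoImplicit false

noncomputable section

namespace Oldroyd

open Set MeasureTheory Filter Topology

/-- memory operator `∫_0^t exp(-α(t-s)) φ(s) ds` -/
def Mem (α : ℝ) (φ : ℝ → ℝ) (t : ℝ) : ℝ := Real.exp (-α * t) * ∫ s in (0:ℝ)..t, Real.exp (α * s) * φ s

theorem Mem_deriv (α : ℝ) {φ : ℝ → ℝ} (hφ : Continuous φ) (t : ℝ) :
    HasDerivAt (Mem α φ) (φ t - α * Mem α φ t) t := by
  have hc : Continuous (fun s => Real.exp (α * s) * φ s) := by fun_prop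
  have h1 : HasDerivAt (fun t => ∫ s in (0:ℝ)..t, Real.exp (α * s) * φ s)
      (Real.exp (α * t) * φ t) t := intervalIntegral.integral_hasDerivAt_right
        (hc.intervalIntegrable _ _) (hc.stronglyMeasurableAtFilter _ _) hc.continuousAt
  have h2 : HasDerivAt (fun t => Real.exp (-α * t)) (-α * Real.exp (-α * t)) t := by
    have := ((hasDerivAt_id t).const_mul (-α)).exp
    simp only [id, mul_one] at this
    exact this.congr_deriv (by ring)
  have h3 := h2.mul h1
  refine h3.congr_deriv ?_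
  have h4 : Real.exp (-α * t) * Real.exp (α * t) = 1 := by
    rw [← Real.exp_add]
    simp
  unfold Mem
  linear_combination φ t * h4

theorem Mem_cont (α : ℝ) {φ : ℝ → ℝ} (hφ : Continuous φ) : Continuous (Mem α φ) :=
  continuous_iff_continuousAt.mpr fun t => (Mem_deriv α hφ t).continuousAt

theorem int_zero {φ : ℝ → ℝ} {t1 : ℝ} (h1 : 0 < t1) (h : ∀ t ≤ t1, φ t = 0) {t : ℝ} (ht : t ≤ t1) :
    ∫ s in (0:ℝ)..t, φ s = 0 := by
  rw [intervalIntegral.integral_congr (g := fun _ => (0:ℝ))]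
  · simp
  · intro s hs
    apply h
    rcases le_total 0 t with h0 | h0
    · rw [uIcc_of_le h0] at hs
      exact hs.2.trans ht
    · rw [uIcc_of_ge h0] at hs
      exact hs.2.trans h1.le

theorem Mem_zero (α : ℝ) {φ : ℝ → ℝ} {t1 : ℝ} (h1 : 0 < t1) (h : ∀ t ≤ t1, φ t = 0) {t : ℝ}
    (ht : t ≤ t1) : Mem α φ t = 0 := by
  unfold Mem
  rw [int_zero h1 (φ := fun s => Real.exp (α * s) * φ s) (fun s hs => by rw [h s hs, mul_zero]) ht,
    mul_zero]

theorem int_bound {φ : ℝ → ℝ} (hφ : Continuous φ) {t1 C : ℝ} (h1 : 0 < t1) (n : ℕ)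
    (h : ∀ t ≤ t1, φ t = 0) {t : ℝ} (ht : t1 ≤ t) (hC : 0 ≤ C)
    (hb : ∀ s, t1 ≤ s → s ≤ t → |φ s| ≤ C * (s - t1)^n) :
    |∫ s in (0:ℝ)..t, φ s| ≤ C * (t - t1)^(n+1) := by
  have hsplit : ∫ s in (0:ℝ)..t, φ s = ∫ s in t1..t, φ s := by
    rw [← intervalIntegral.integral_add_adjacent_intervals (b := t1) (hφ.intervalIntegrable _ _)
      (hφ.intervalIntegrable _ _), int_zero h1 h le_rfl, zero_add]
  rw [hsplit]
  have hbd : ∀ s ∈ uIoc t1 t, ‖φ s‖ ≤ C * (t - t1)^n := by
    intro s hs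
    rw [uIoc_of_le ht] at hs
    refine (hb s hs.1.le hs.2).trans (mul_le_mul_of_nonneg_left ?_ hC)
    exact pow_le_pow_left₀ (by linarith [hs.1]) (by linarith [hs.2]) n
  have := intervalIntegral.norm_integral_le_of_norm_le_const hbd
  rw [Real.norm_eq_abs, abs_of_nonneg (by linarith : (0:ℝ) ≤ t - t1)] at this
  calc |∫ s in t1..t, φ s| ≤ C * (t - t1)^n * (t - t1) := this
    _ = C * (t - t1)^(n+1) := by ring

theorem Mem_bound {α : ℝ} (hα : 0 ≤ α) {φ : ℝ → ℝ} (hφ : Continuous φ) {t1 C : ℝ} (h1 : 0 < t1)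
    (n : ℕ) (h : ∀ t ≤ t1, φ t = 0) {t : ℝ} (ht : t1 ≤ t) (hC : 0 ≤ C)
    (hb : ∀ s, t1 ≤ s → s ≤ t → |φ s| ≤ C * (s - t1)^n) :
    |Mem α φ t| ≤ C * (t - t1)^(n+1) := by
  unfold Mem
  have e1 : Real.exp (-α * t) * ∫ s in (0:ℝ)..t, Real.exp (α * s) * φ s =
      ∫ s in (0:ℝ)..t, Real.exp (-α * t) * (Real.exp (α * s) * φ s) := by
    rw [intervalIntegral.integral_const_mul]
  rw [e1]
  apply int_bound (φ := fun s => Real.exp (-α * t) * (Real.exp (α * s) * φ s)) (by fun_prop) h1 n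
    (fun s hs => by rw [h s hs]; ring) ht hC
  intro s hs1 hs2
  rw [← mul_assoc, ← Real.exp_add, abs_mul, abs_of_pos (Real.exp_pos _)]
  have : Real.exp (-α * t + α * s) ≤ 1 := by
    rw [Real.exp_le_one_iff]
    nlinarith
  calc Real.exp (-α * t + α * s) * |φ s| ≤ 1 * |φ s| :=
        mul_le_mul_of_nonneg_right this (abs_nonneg _)
    _ = |φ s| := one_mul _
    _ ≤ _ := hb s hs1 hs2

/-- the coefficients of the compactly supported flow -/
def phi (ν α β t1 : ℝ) : ℕ → ℝ → ℝ
  | 0, t => (max (t - t1) 0)^2 / 2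
  | k + 1, t => ∫ s in (0:ℝ)..t, (ν * phi ν α β t1 k s + β * Mem α (phi ν α β t1 k) s)

variable {ν α β t1 : ℝ}

theorem phi_cont (k : ℕ) : Continuous (phi ν α β t1 k) := by
  induction k with
  | zero =>
    have e : phi ν α β t1 0 = fun t => (max (t - t1) 0)^2 / 2 := by
      funext t
      rw [phi]
    rw [e]
    fun_prop
  | succ k ih =>
    have hc : Continuous (fun s => ν * phi ν α β t1 k s + β * Mem α (phi ν α β t1 k) s) :=
      (ih.const_mul ν).add ((Mem_cont α ih).const_mul β)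
    have e : phi ν α β t1 (k+1) = fun t => ∫ s in (0:ℝ)..t,
        (ν * phi ν α β t1 k s + β * Mem α (phi ν α β t1 k) s) := by
      funext t
      rw [phi]
    rw [e]
    exact intervalIntegral.continuous_primitive (fun a b => hc.intervalIntegrable a b) 0

theorem phi_deriv_succ (k : ℕ) (t : ℝ) : HasDerivAt (phi ν α β t1 (k+1))
    (ν * phi ν α β t1 k t + β * Mem α (phi ν α β t1 k) t) t := by
  have hc : Continuous (fun s => ν * phi ν α β t1 k s + β * Mem α (phi ν α β t1 k) s) :=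
    ((phi_cont k).const_mul ν).add ((Mem_cont α (phi_cont k)).const_mul β)
  have : phi ν α β t1 (k+1) = fun t => ∫ s in (0:ℝ)..t,
      (ν * phi ν α β t1 k s + β * Mem α (phi ν α β t1 k) s) := by
    funext t
    rw [phi]
  rw [this]
  exact intervalIntegral.integral_hasDerivAt_right
    (hc.intervalIntegrable _ _) (hc.stronglyMeasurableAtFilter _ _) hc.continuousAt

theorem phi_deriv_zero (t : ℝ) : HasDerivAt (phi ν α β t1 0) (max (t - t1) 0) t := by
  have e : phi ν α β t1 0 = fun t => (max (t - t1) 0)^2 / 2 := by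
    funext t
    rw [phi]
  rw [e]
  rcases lt_trichotomy t t1 with h | h | h
  · have h1 : (fun t : ℝ => (max (t - t1) 0)^2 / 2) =ᶠ[𝓝 t] fun _ => 0 := by
      filter_upwards [Iio_mem_nhds h] with s hs
      have hs' : s < t1 := hs
      rw [max_eq_right (by linarith)]
      norm_num
    rw [max_eq_right (by linarith)]
    exact (hasDerivAt_const t (0:ℝ)).congr_of_eventuallyEq h1
  · subst h
    rw [sub_self, max_self]
    rw [hasDerivAt_iff_isLittleO]
    have h1 : (fun s : ℝ => (max (s - t) 0)^2/2 - (max (t - t) 0)^2/2 - (s - t) • (0:ℝ)) =O[𝓝 t]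
        (fun s => (s - t)^2) := by
      apply Asymptotics.IsBigO.of_bound 1
      filter_upwards with s
      rw [sub_self, max_self]
      simp only [smul_zero, sub_zero]
      have e0 : max (s - t) 0 ^ 2 / 2 - 0 ^ 2 / 2 = max (s - t) 0 ^ 2 / 2 := by ring
      rw [Real.norm_eq_abs, Real.norm_eq_abs, e0, abs_of_nonneg (by positivity), abs_of_nonneg (by positivity)]
      rcases le_total (s - t) 0 with h2 | h2
      · rw [max_eq_right h2]
        nlinarith [sq_nonneg (s - t)]
      · rw [max_eq_left h2]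
        nlinarith [sq_nonneg (s - t)]
    refine h1.trans_isLittleO ?_
    have h2 : (fun s : ℝ => (s - t)^2) =o[𝓝 t] (fun s => (s - t)^1) := by
      have := (Asymptotics.isLittleO_pow_pow (𝕜 := ℝ) (m := 1) (n := 2) (by norm_num))
      exact this.comp_tendsto (by
        have : Tendsto (fun s : ℝ => s - t) (𝓝 t) (𝓝 (t - t)) :=
          (continuous_id.sub continuous_const).tendsto t
        rwa [sub_self] at this)
    simpa using h2
  · have h1 : (fun t : ℝ => (max (t - t1) 0)^2 / 2) =ᶠ[𝓝 t] fun s => (s - t1)^2/2 := by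
      filter_upwards [Ioi_mem_nhds h] with s hs
      have hs' : t1 < s := hs
      rw [max_eq_left (by linarith)]
    rw [max_eq_left (by linarith)]
    have h2 : HasDerivAt (fun s : ℝ => (s - t1)^2/2) (t - t1) t := by
      have := (((hasDerivAt_id t).sub_const t1).pow 2).div_const 2
      simp only [id] at this
      exact this.congr_deriv (by norm_num)
    exact h2.congr_of_eventuallyEq h1

theorem phi_zero_of_le (h1 : 0 < t1) (k : ℕ) {t : ℝ} (ht : t ≤ t1) : phi ν α β t1 k t = 0 := by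
  induction k generalizing t with
  | zero =>
    rw [phi, max_eq_right (by linarith)]
    norm_num
  | succ k ih =>
    rw [phi]
    exact int_zero h1 (fun s hs => by rw [ih hs, Mem_zero α h1 (fun r hr => ih hr) hs]; ring) ht

theorem phi_bound (hν : 0 ≤ ν) (hα : 0 ≤ α) (hβ : 0 ≤ β) (h1 : 0 < t1) (T : ℝ) (hT : t1 ≤ T) (k : ℕ) :
    ∃ C, 0 ≤ C ∧ ∀ t, t1 ≤ t → t ≤ T → |phi ν α β t1 k t| ≤ C * (t - t1)^(k+2) := by
  induction k with
  | zero =>
    refine ⟨1, zero_le_one, fun t h _ => ?_⟩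
    rw [phi, max_eq_left (by linarith), abs_of_nonneg (by positivity)]
    nlinarith [sq_nonneg (t - t1)]
  | succ k ih =>
    obtain ⟨C, hC, hb⟩ := ih
    have hMem : ∀ t, t1 ≤ t → t ≤ T → |Mem α (phi ν α β t1 k) t| ≤ C * (t - t1)^(k+2+1) := by
      intro t h2 h3
      exact Mem_bound hα (phi_cont k) h1 (k+2) (fun s hs => phi_zero_of_le h1 k hs) h2 hC
        (fun s hs1 hs2 => hb s hs1 (hs2.trans h3))
    refine ⟨ν * C + β * (C * (T - t1)), by have := sub_nonneg.2 hT; positivity, fun t h2 h3 => ?_⟩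
    rw [phi]
    have hc : Continuous (fun s => ν * phi ν α β t1 k s + β * Mem α (phi ν α β t1 k) s) :=
      ((phi_cont k).const_mul ν).add ((Mem_cont α (phi_cont k)).const_mul β)
    apply int_bound hc h1 (k+2) (fun s hs => by
      rw [phi_zero_of_le h1 k hs, Mem_zero α h1 (fun r hr => phi_zero_of_le h1 k hr) hs]; ring) h2
      (by have := sub_nonneg.2 hT; positivity)
    intro s hs1 hs2
    have hs3 : s ≤ T := hs2.trans h3
    have b1 := hb s hs1 hs3
    have b2 := hMem s hs1 hs3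
    have hs0 : 0 ≤ s - t1 := by linarith
    have b3 : C * (s - t1)^(k+2+1) ≤ C * (T - t1) * (s - t1)^(k+2) := by
      have : (s - t1)^(k+2+1) = (s - t1)^(k+2) * (s - t1) := by ring
      rw [this]
      have h4 : (s - t1)^(k+2) * (s - t1) ≤ (s - t1)^(k+2) * (T - t1) :=
        mul_le_mul_of_nonneg_left (by linarith) (by positivity)
      nlinarith [mul_le_mul_of_nonneg_left h4 hC]
    calc |ν * phi ν α β t1 k s + β * Mem α (phi ν α β t1 k) s|
        ≤ |ν * phi ν α β t1 k s| + |β * Mem α (phi ν α β t1 k) s| := abs_add_le _ _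
      _ = ν * |phi ν α β t1 k s| + β * |Mem α (phi ν α β t1 k) s| := by
          rw [abs_mul, abs_mul, abs_of_nonneg hν, abs_of_nonneg hβ]
      _ ≤ ν * (C * (s - t1)^(k+2)) + β * (C * (T - t1) * (s - t1)^(k+2)) :=
          add_le_add (mul_le_mul_of_nonneg_left b1 hν)
            (mul_le_mul_of_nonneg_left (b2.trans b3) hβ)
      _ = _ := by ring

end Oldroyd
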