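import Pool.Agent.Helper20.Oldroyd.Defs
import Pool.Agent.Helper20.Oldroyd.Time

/-!
Compactly supported flows of the linearised Oldroyd system.
-/

set_option autoImplicit false

noncomputable section

namespace Oldroyd

open Set MeasureTheory Filter Topology
open scoped ContDiff

variable {d : ℕ}

/-- component of the rotated gradient in the plane of the coordinates `a, b` -/
def cmp (a b i : Fin d) (g : Sp d → ℝ) (x : Sp d) : ℝ :=
  (if i = a then pd b g x else 0) - (if i = b then pd a g x else 0)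

/-- rotated gradient -/
def rot (a b : Fin d) (g : Sp d → ℝ) (x : Sp d) : Sp d := WithLp.toLp 2 (fun i => cmp a b i g x)

theorem rot_apply (a b i : Fin d) (g : Sp d → ℝ) (x : Sp d) : rot a b g x i = cmp a b i g x := rfl

theorem cmp_smooth (a b i : Fin d) {g : Sp d → ℝ} (hg : ContDiff ℝ ∞ g) :
    ContDiff ℝ ∞ (cmp a b i g) := by
  unfold cmp
  apply ContDiff.sub
  · split_ifs
    · exact pd_smooth hg b
    · exact contDiff_const
  · split_ifs
    · exact pd_smooth hg a
    · exact contDiff_const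

theorem rot_smooth (a b : Fin d) {g : Sp d → ℝ} (hg : ContDiff ℝ ∞ g) :
    ContDiff ℝ ∞ (rot a b g) := by
  rw [contDiff_euclidean]
  exact fun i => cmp_smooth a b i hg

theorem cmp_supp (a b i : Fin d) {g : Sp d → ℝ} {K : Set (Sp d)} (hK : IsClosed K)
    (h : ∀ x, x ∉ K → g x = 0) : ∀ x, x ∉ K → cmp a b i g x = 0 := by
  intro x hx
  unfold cmp
  rw [pd_supp hK h b x hx, pd_supp hK h a x hx]
  simp

theorem rot_supp (a b : Fin d) {g : Sp d → ℝ} {K : Set (Sp d)} (hK : IsClosed K)
    (h : ∀ x, x ∉ K → g x = 0) : ∀ x, x ∉ K → rot a b g x = 0 := by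
  intro x hx
  ext i
  rw [rot_apply, cmp_supp a b i hK h x hx]
  rfl

theorem cmp_sum (a b i : Fin d) {ι : Type*} (s : Finset ι) (c : ι → ℝ) (g : ι → Sp d → ℝ)
    (hg : ∀ k ∈ s, ContDiff ℝ ∞ (g k)) :
    cmp a b i (fun x => ∑ k ∈ s, c k * g k x) = fun x => ∑ k ∈ s, c k * cmp a b i (g k) x := by
  funext x
  unfold cmp
  have h : ∀ j : Fin d, pd j (fun x => ∑ k ∈ s, c k * g k x) x = ∑ k ∈ s, c k * pd j (g k) x := by
    intro j
    rw [pd_sum s (fun k x => c k * g k x) (fun k hk => contDiff_const.mul (hg k hk)) j]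
    refine Finset.sum_congr rfl fun k hk => ?_
    rw [pd_const_mul (c k) (hg k hk) j]
  rw [h, h]
  split_ifs <;> simp [mul_sub, Finset.sum_sub_distrib]

theorem pd_cmp (a b i j : Fin d) {g : Sp d → ℝ} (hg : ContDiff ℝ ∞ g) :
    pd j (cmp a b i g) = cmp a b i (pd j g) := by
  funext x
  have h1 : cmp a b i g = fun x => (if i = a then pd b g x else 0) + (-(if i = b then pd a g x else 0)) := by
    funext x
    unfold cmp
    ring
  rw [h1]
  have e1 : ContDiff ℝ ∞ (fun x => if i = a then pd b g x else 0) := by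
    split_ifs
    · exact pd_smooth hg b
    · exact contDiff_const
  have e2 : ContDiff ℝ ∞ (fun x => if i = b then pd a g x else 0) := by
    split_ifs
    · exact pd_smooth hg a
    · exact contDiff_const
  rw [pd_add e1 e2.neg, pd_neg]
  unfold cmp
  split_ifs <;> simp [pd_zero, pd_comm hg j]
  ring

theorem lapl_cmp (a b i : Fin d) {g : Sp d → ℝ} (hg : ContDiff ℝ ∞ g) :
    lapl (cmp a b i g) = cmp a b i (lapl g) := by
  have h1 : lapl g = fun x => ∑ j ∈ Finset.univ, (1:ℝ) * (fun j => pd j (pd j g)) j x := by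
    funext x
    unfold lapl
    simp
  rw [h1, cmp_sum a b i Finset.univ (fun _ => 1) (fun j => pd j (pd j g))
    (fun k _ => pd_smooth (pd_smooth hg k) k)]
  funext x
  unfold lapl
  refine Finset.sum_congr rfl fun j _ => ?_
  rw [pd_cmp a b i j hg, pd_cmp a b i j (pd_smooth hg j), one_mul]

theorem sum_pd_cmp (a b : Fin d) {g : Sp d → ℝ} (hg : ContDiff ℝ ∞ g) (x : Sp d) :
    ∑ i, pd i (cmp a b i g) x = 0 := by
  have : ∀ i, pd i (cmp a b i g) x = (if i = a then pd b (pd i g) x else 0) -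
      (if i = b then pd a (pd i g) x else 0) := by
    intro i
    rw [pd_cmp a b i i hg]
    rfl
  simp only [this, Finset.sum_sub_distrib, Finset.sum_ite_eq', Finset.mem_univ, if_true]
  rw [pd_comm hg b a, sub_self]

theorem divg_rot (a b : Fin d) {g : Sp d → ℝ} (hg : ContDiff ℝ ∞ g) (x : Sp d) :
    divg (rot a b g) x = 0 := sum_pd_cmp a b hg x

theorem symGrad_smooth {u : Sp d → Sp d} (hu : ContDiff ℝ ∞ u) (i j : Fin d) :
    ContDiff ℝ ∞ (fun x => symGrad u x i j) := by
  unfold symGrad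
  have h := contDiff_euclidean.mp hu
  exact ((pd_smooth (h i) j).add (pd_smooth (h j) i)).div_const 2

/-- divergence of the symmetric gradient of a divergence free rotated gradient -/
theorem div_symGrad_rot (a b : Fin d) {g : Sp d → ℝ} (hg : ContDiff ℝ ∞ g) (i : Fin d) (x : Sp d) :
    ∑ j, pd j (fun y => symGrad (rot a b g) y i j) x = cmp a b i (lapl g) x / 2 := by
  have hc : ∀ i, ContDiff ℝ ∞ (cmp a b i g) := fun i => cmp_smooth a b i hg
  have h1 : ∀ j, pd j (fun y => symGrad (rot a b g) y i j) x =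
      (1/2) * (pd j (pd j (cmp a b i g)) x + pd i (pd j (cmp a b j g)) x) := by
    intro j
    have e : (fun y => symGrad (rot a b g) y i j) =
        fun y => (1/2) * (pd j (cmp a b i g) y + pd i (cmp a b j g) y) := by
      funext y
      unfold symGrad
      have : (fun y => rot a b g y i) = cmp a b i g := rfl
      rw [this]
      have : (fun y => rot a b g y j) = cmp a b j g := rfl
      rw [this]
      ring
    rw [e, pd_const_mul _ ((pd_smooth (hc i) j).add (pd_smooth (hc j) i)),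
      pd_add (pd_smooth (hc i) j) (pd_smooth (hc j) i), pd_comm (hc j) j i]
  simp only [h1]
  rw [← Finset.mul_sum, Finset.sum_add_distrib]
  have h2 : ∑ j, pd i (pd j (cmp a b j g)) x = 0 := by
    have : (fun x => ∑ j ∈ Finset.univ, pd j (cmp a b j g) x) = fun _ => 0 := by
      funext x
      exact sum_pd_cmp a b hg x
    have h3 := pd_sum Finset.univ (fun j => pd j (cmp a b j g)) (fun k _ => pd_smooth (hc k) k) i
    rw [this, pd_zero] at h3
    exact (congrFun h3 x).symm
  have h4 : ∑ j, pd j (pd j (cmp a b i g)) x = cmp a b i (lapl g) x := by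
    rw [← lapl_cmp a b i hg]
    rfl
  rw [h2, h4]
  ring

/-! ### the flow -/

variable (ν α β t1 : ℝ) (a b : Fin d) (ψ : Sp d → ℝ)

/-- iterated Laplacians of the stream function -/
def GG : ℕ → Sp d → ℝ
  | 0 => ψ
  | k + 1 => lapl (GG k)

theorem GG_smooth (hψ : ContDiff ℝ ∞ ψ) (k : ℕ) : ContDiff ℝ ∞ (GG ψ k) := by
  induction k with
  | zero => exact hψ
  | succ k ih => exact lapl_smooth ih

theorem GG_supp {K : Set (Sp d)} (hK : IsClosed K) (h : ∀ x, x ∉ K → ψ x = 0) (k : ℕ) :
    ∀ x, x ∉ K → GG ψ k x = 0 := by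
  induction k with
  | zero => exact h
  | succ k ih => exact lapl_supp hK ih

/-- stream function of the velocity -/
def Psi (M : ℕ) (t : ℝ) (x : Sp d) : ℝ := ∑ k ∈ Finset.range (M+1), phi ν α β t1 k t * GG ψ k x

/-- stream function of the memory part -/
def Psm (M : ℕ) (t : ℝ) (x : Sp d) : ℝ :=
  ∑ k ∈ Finset.range (M+1), Mem α (phi ν α β t1 k) t * GG ψ k x

/-- velocity -/
def vel (M : ℕ) (t : ℝ) (x : Sp d) : Sp d := rot a b (Psi ν α β t1 ψ M t) x

/-- extra stress -/
def ext (M : ℕ) (t : ℝ) (x : Sp d) (i j : Fin d) : ℝ :=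
  2 * β * symGrad (rot a b (Psm ν α β t1 ψ M t)) x i j

/-- coefficient of the remainder -/
def rem (M : ℕ) (t : ℝ) : ℝ := ν * phi ν α β t1 M t + β * Mem α (phi ν α β t1 M) t

/-- source -/
def src (M : ℕ) (t : ℝ) (x : Sp d) : Sp d :=
  (max (t - t1) 0) • rot a b ψ x - (rem ν α β t1 M t) • rot a b (GG ψ (M+1)) x

variable {ψ} (hψ : ContDiff ℝ ∞ ψ)
include hψ

theorem Psi_smooth (M : ℕ) (t : ℝ) : ContDiff ℝ ∞ (Psi ν α β t1 ψ M t) := by
  unfold Psi
  exact ContDiff.sum fun k _ => contDiff_const.mul (GG_smooth ψ hψ k)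

theorem Psm_smooth (M : ℕ) (t : ℝ) : ContDiff ℝ ∞ (Psm ν α β t1 ψ M t) := by
  unfold Psm
  exact ContDiff.sum fun k _ => contDiff_const.mul (GG_smooth ψ hψ k)

theorem vel_smooth (M : ℕ) (t : ℝ) : ContDiff ℝ ∞ (vel ν α β t1 a b ψ M t) :=
  rot_smooth a b (Psi_smooth ν α β t1 hψ M t)

theorem vel_apply (M : ℕ) (t : ℝ) (x : Sp d) (i : Fin d) : vel ν α β t1 a b ψ M t x i =
    ∑ k ∈ Finset.range (M+1), phi ν α β t1 k t * cmp a b i (GG ψ k) x := by
  unfold vel Psi
  rw [rot_apply, cmp_sum a b i _ _ _ (fun k _ => GG_smooth ψ hψ k)]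

theorem vel_cont (M : ℕ) : Continuous (fun z : ℝ × Sp d => vel ν α β t1 a b ψ M z.1 z.2) := by
  have : (fun z : ℝ × Sp d => vel ν α β t1 a b ψ M z.1 z.2) =
      fun z => ∑ k ∈ Finset.range (M+1), phi ν α β t1 k z.1 • rot a b (GG ψ k) z.2 := by
    funext z
    ext i
    rw [vel_apply ν α β t1 a b hψ]
    simp [rot_apply]
  rw [this]
  refine continuous_finsetSum _ fun k _ => ?_
  exact ((phi_cont k).comp continuous_fst).smul
    ((rot_smooth a b (GG_smooth ψ hψ k)).continuous.comp continuous_snd)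

theorem momentum_eq (M : ℕ) (t : ℝ) (x : Sp d) (i : Fin d) :
    HasDerivAt (fun s => vel ν α β t1 a b ψ M s x i) (src ν α β t1 a b ψ M t x i -
      pd i (fun _ => (0:ℝ)) x + ν * lapl (fun y => vel ν α β t1 a b ψ M t y i) x +
      ∑ j, pd j (fun y => ext ν α β t1 a b ψ M t y i j) x) t := by
  have hG : ∀ k, ContDiff ℝ ∞ (GG ψ k) := GG_smooth ψ hψ
  have h1 : HasDerivAt (fun s => vel ν α β t1 a b ψ M s x i)
      (∑ k ∈ Finset.range M, (ν * phi ν α β t1 k t + β * Mem α (phi ν α β t1 k) t) *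
        cmp a b i (GG ψ (k+1)) x + max (t - t1) 0 * cmp a b i (GG ψ 0) x) t := by
    have e : (fun s => vel ν α β t1 a b ψ M s x i) =
        fun s => ∑ k ∈ Finset.range M, phi ν α β t1 (k+1) s * cmp a b i (GG ψ (k+1)) x +
          phi ν α β t1 0 s * cmp a b i (GG ψ 0) x := by
      funext s
      rw [vel_apply ν α β t1 a b hψ, Finset.sum_range_succ']
    rw [e]
    apply HasDerivAt.add
    · exact HasDerivAt.fun_sum fun k _ => (phi_deriv_succ k t).mul_const _
    · exact (phi_deriv_zero t).mul_const _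
  refine h1.congr_deriv ?_
  have h2 : lapl (fun y => vel ν α β t1 a b ψ M t y i) x =
      ∑ k ∈ Finset.range (M+1), phi ν α β t1 k t * cmp a b i (GG ψ (k+1)) x := by
    have e : (fun y => vel ν α β t1 a b ψ M t y i) =
        fun y => ∑ k ∈ Finset.range (M+1), phi ν α β t1 k t * cmp a b i (GG ψ k) y := by
      funext y
      exact vel_apply ν α β t1 a b hψ M t y i
    rw [e, lapl_sum _ (fun k y => phi ν α β t1 k t * cmp a b i (GG ψ k) y)
      (fun k _ => contDiff_const.mul (cmp_smooth a b i (hG k)))]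
    refine Finset.sum_congr rfl fun k _ => ?_
    rw [lapl_const_mul _ (cmp_smooth a b i (hG k)), lapl_cmp a b i (hG k)]
    rfl
  have h3 : ∑ j, pd j (fun y => ext ν α β t1 a b ψ M t y i j) x =
      β * ∑ k ∈ Finset.range (M+1), Mem α (phi ν α β t1 k) t * cmp a b i (GG ψ (k+1)) x := by
    have hP := Psm_smooth ν α β t1 hψ M t
    have e : ∀ j, pd j (fun y => ext ν α β t1 a b ψ M t y i j) x =
        2 * β * pd j (fun y => symGrad (rot a b (Psm ν α β t1 ψ M t)) y i j) x := by
      intro j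
      unfold ext
      rw [pd_const_mul _ (symGrad_smooth (rot_smooth a b hP) i j)]
    simp only [e]
    rw [← Finset.mul_sum, div_symGrad_rot a b hP i x]
    have e2 : lapl (Psm ν α β t1 ψ M t) = fun x => ∑ k ∈ Finset.range (M+1),
        Mem α (phi ν α β t1 k) t * GG ψ (k+1) x := by
      unfold Psm
      rw [lapl_sum _ (fun k y => Mem α (phi ν α β t1 k) t * GG ψ k y)
        (fun k _ => contDiff_const.mul (hG k))]
      funext x
      refine Finset.sum_congr rfl fun k _ => ?_
      rw [lapl_const_mul _ (hG k)]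
      rfl
    rw [e2, cmp_sum a b i _ _ _ (fun k _ => hG (k+1))]
    ring
  rw [h2, h3, pd_zero]
  unfold src rem
  have e4 : (max (t - t1) 0 • rot a b ψ x -
      (ν * phi ν α β t1 M t + β * Mem α (phi ν α β t1 M) t) • rot a b (GG ψ (M + 1)) x) i =
      max (t - t1) 0 * cmp a b i ψ x -
      (ν * phi ν α β t1 M t + β * Mem α (phi ν α β t1 M) t) * cmp a b i (GG ψ (M + 1)) x := by
    simp [rot_apply]
  rw [e4, Finset.mul_sum, Finset.mul_sum, Finset.sum_range_succ, Finset.sum_range_succ]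
  have e5 : ∑ k ∈ Finset.range M, (ν * phi ν α β t1 k t + β * Mem α (phi ν α β t1 k) t) *
        cmp a b i (GG ψ (k+1)) x = ∑ k ∈ Finset.range M, ν * (phi ν α β t1 k t *
        cmp a b i (GG ψ (k+1)) x) + ∑ k ∈ Finset.range M, β * (Mem α (phi ν α β t1 k) t *
        cmp a b i (GG ψ (k+1)) x) := by
    rw [← Finset.sum_add_distrib]
    exact Finset.sum_congr rfl fun k _ => by ring
  rw [e5]
  have e6 : GG ψ 0 = ψ := rfl
  rw [e6]
  ring

theorem elastic_eq (M : ℕ) (t : ℝ) (x : Sp d) (i j : Fin d) :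
    HasDerivAt (fun s => ext ν α β t1 a b ψ M s x i j)
      (2 * β * symGrad (vel ν α β t1 a b ψ M t) x i j - α * ext ν α β t1 a b ψ M t x i j) t := by
  have hG : ∀ k, ContDiff ℝ ∞ (GG ψ k) := GG_smooth ψ hψ
  have key : ∀ (c : ℕ → ℝ), symGrad (rot a b (fun x => ∑ k ∈ Finset.range (M+1), c k * GG ψ k x)) x i j =
      ∑ k ∈ Finset.range (M+1), c k * symGrad (rot a b (GG ψ k)) x i j := by
    intro c
    have e : ∀ i j, pd j (fun y => rot a b (fun x => ∑ k ∈ Finset.range (M+1), c k * GG ψ k x) y i) x =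
        ∑ k ∈ Finset.range (M+1), c k * pd j (fun y => rot a b (GG ψ k) y i) x := by
      intro i j
      have e1 : (fun y => rot a b (fun x => ∑ k ∈ Finset.range (M+1), c k * GG ψ k x) y i) =
          fun y => ∑ k ∈ Finset.range (M+1), c k * cmp a b i (GG ψ k) y := by
        have := cmp_sum a b i (Finset.range (M+1)) c (GG ψ) (fun k _ => hG k)
        exact this
      rw [e1, pd_sum _ (fun k y => c k * cmp a b i (GG ψ k) y)
        (fun k _ => contDiff_const.mul (cmp_smooth a b i (hG k)))]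
      refine Finset.sum_congr rfl fun k _ => ?_
      rw [pd_const_mul _ (cmp_smooth a b i (hG k))]
      rfl
    unfold symGrad
    rw [e, e, ← Finset.sum_add_distrib, Finset.sum_div]
    exact Finset.sum_congr rfl fun k _ => by ring
  have h1 : (fun s => ext ν α β t1 a b ψ M s x i j) = fun s => 2 * β *
      ∑ k ∈ Finset.range (M+1), Mem α (phi ν α β t1 k) s * symGrad (rot a b (GG ψ k)) x i j := by
    funext s
    unfold ext Psm
    rw [key (fun k => Mem α (phi ν α β t1 k) s)]
  have h2 : symGrad (vel ν α β t1 a b ψ M t) x i j =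
      ∑ k ∈ Finset.range (M+1), phi ν α β t1 k t * symGrad (rot a b (GG ψ k)) x i j := by
    have := key (fun k => phi ν α β t1 k t)
    exact this
  have h3 : HasDerivAt (fun s => 2 * β * ∑ k ∈ Finset.range (M+1),
      Mem α (phi ν α β t1 k) s * symGrad (rot a b (GG ψ k)) x i j)
      (2 * β * ∑ k ∈ Finset.range (M+1), (phi ν α β t1 k t - α * Mem α (phi ν α β t1 k) t) *
        symGrad (rot a b (GG ψ k)) x i j) t := by
    apply HasDerivAt.const_mul
    exact HasDerivAt.fun_sum fun k _ => (Mem_deriv α (phi_cont k) t).mul_const _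
  rw [h1]
  refine h3.congr_deriv ?_
  rw [h2, congrFun h1 t]
  simp only [sub_mul, Finset.sum_sub_distrib, mul_assoc, ← Finset.mul_sum]
  ring

end Oldroyd
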