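import Pool.Agent.Helper20.Oldroyd.Defs

/-!
Geometry: balls as obstacles.
-/

set_option autoImplicit false

noncomputable section

namespace Oldroyd

open Set MeasureTheory Filter Topology Metric
open scoped ContDiff

variable {d : ℕ}

theorem rank_gt (hd : 2 ≤ d) : 1 < Module.rank ℝ (Sp d) := by
  rw [← Module.finrank_eq_rank]
  have : Module.finrank ℝ (Sp d) = d := by simp
  rw [this]
  exact_mod_cast hd

theorem ball_smooth (x0 : Sp d) {r : ℝ} (hr : 0 < r) : SmoothSet (ball x0 r) := by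
  refine ⟨fun x => ‖x - x0‖^2 - r^2, ?_, ?_, ?_, ?_⟩
  · exact (((contDiff_id.sub contDiff_const).norm_sq ℝ).sub contDiff_const)
  · ext x
    rw [mem_ball, dist_eq_norm, mem_ofPred_eq, sub_neg]
    exact (sq_lt_sq₀ (norm_nonneg _) hr.le).symm
  · rw [frontier_ball x0 hr.ne']
    ext x
    rw [mem_sphere, dist_eq_norm, mem_ofPred_eq, sub_eq_zero]
    exact (sq_eq_sq₀ (norm_nonneg _) hr.le).symm
  · intro x hx h0
    rw [frontier_ball x0 hr.ne', mem_sphere, dist_eq_norm] at hx
    have h1 : HasFDerivAt (fun x : Sp d => ‖x - x0‖^2 - r^2) (2 • (innerSL ℝ) (x - x0)) x := by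
      have h2 := (hasStrictFDerivAt_norm_sq (x - x0)).hasFDerivAt
      have h3 : HasFDerivAt (fun x : Sp d => x - x0) (ContinuousLinearMap.id ℝ (Sp d)) x :=
        (hasFDerivAt_id x).sub_const x0
      have := (h2.comp x h3).sub_const (r^2)
      simpa using this
    rw [h1.fderiv] at h0
    have h4 := DFunLike.congr_fun h0 (x - x0)
    simp only [_root_.smul_apply, innerSL_apply_apply, real_inner_self_eq_norm_sq, hx,
      _root_.zero_apply, nsmul_eq_mul] at h4
    have : 0 < r^2 := by positivity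
    push_cast at h4
    linarith

theorem ball_simply (x0 : Sp d) {r : ℝ} (hr : 0 < r) : SimplyConnectedSpace (ball x0 r) := by
  have h := (convex_ball x0 r).contractibleSpace ⟨x0, mem_ball_self hr⟩
  infer_instance

theorem ball_obstacle {Ω : Set (Sp d)} (x0 : Sp d) {r : ℝ} (hr : 0 < r) (h : closedBall x0 r ⊆ Ω) :
    Obstacle Ω (ball x0 r) :=
  ⟨isOpen_ball, ball_simply x0 hr, ball_smooth x0 hr, closure_ball_subset_closedBall.trans h⟩

theorem annulus_conn (hd : 2 ≤ d) (x0 : Sp d) {r R : ℝ} (hr : 0 < r) :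
    IsPreconnected (ball x0 R \ closedBall x0 r) := by
  have h1 : ball x0 R \ closedBall x0 r =
      (fun p : ℝ × Sp d => x0 + p.1 • p.2) '' (Ioo r R ×ˢ sphere (0 : Sp d) 1) := by
    ext x
    constructor
    · rintro ⟨hx1, hx2⟩
      rw [mem_ball, dist_eq_norm] at hx1
      rw [mem_closedBall, dist_eq_norm, not_le] at hx2
      refine ⟨(‖x - x0‖, ‖x - x0‖⁻¹ • (x - x0)), ⟨⟨hx2, hx1⟩, ?_⟩, ?_⟩
      · rw [mem_sphere_zero_iff_norm]
        show ‖‖x - x0‖⁻¹ • (x - x0)‖ = 1
        rw [norm_smul, norm_inv, norm_norm, inv_mul_cancel₀ (by linarith)]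
      · show x0 + ‖x - x0‖ • (‖x - x0‖⁻¹ • (x - x0)) = x
        rw [smul_smul, mul_inv_cancel₀ (by linarith), one_smul]
        abel
    · rintro ⟨⟨s, v⟩, ⟨hs, hv⟩, rfl⟩
      rw [mem_sphere_zero_iff_norm] at hv
      have hn : ‖x0 + s • v - x0‖ = s := by
        rw [add_sub_cancel_left, norm_smul, hv, mul_one, Real.norm_of_nonneg (by linarith [hs.1])]
      refine ⟨?_, ?_⟩
      · rw [mem_ball, dist_eq_norm]
        show ‖x0 + s • v - x0‖ < R
        rw [hn]
        exact hs.2
      · rw [mem_closedBall, dist_eq_norm, not_le]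
        show r < ‖x0 + s • v - x0‖
        rw [hn]
        exact hs.1
  rw [h1]
  apply IsPreconnected.image
  · exact isPreconnected_Ioo.prod (isPreconnected_sphere (rank_gt hd) 0 1)
  · fun_prop

theorem compl_ball_conn (hd : 2 ≤ d) {Ω : Set (Sp d)} (hΩ : IsOpen Ω) (hc : IsPreconnected Ω)
    (x0 : Sp d) {r R : ℝ} (hr : 0 < r) (hrR : r < R) (h : ball x0 R ⊆ Ω) :
    IsConnected (Ω \ closedBall x0 r) := by
  have hopen : IsOpen (Ω \ closedBall x0 r) := hΩ.sdiff isClosed_closedBall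
  have hA := annulus_conn hd x0 (R := R) hr
  have hAsub : ball x0 R \ closedBall x0 r ⊆ Ω \ closedBall x0 r := sdiff_subset_sdiff_left h
  have hne : (ball x0 R \ closedBall x0 r).Nonempty := by
    obtain ⟨s, hs1, hs2⟩ := exists_between hrR
    have hs0 : 0 < s := hr.trans hs1
    obtain ⟨v, hv⟩ : ∃ v : Sp d, ‖v‖ = s := by
      have : Nontrivial (Sp d) := by
        have := rank_gt hd
        exact rank_pos_iff_nontrivial.mp (lt_trans zero_lt_one this)
      exact exists_norm_eq (Sp d) hs0.le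
    refine ⟨x0 + v, ?_, ?_⟩
    · rw [mem_ball, dist_eq_norm, add_sub_cancel_left, hv]
      exact hs2
    · rw [mem_closedBall, dist_eq_norm, add_sub_cancel_left, hv, not_le]
      exact hs1
  refine ⟨hne.mono hAsub, ?_⟩
  rw [isPreconnected_iff_subset_of_disjoint]
  intro U V hU hV hUV hdisj
  -- the annulus lies on one side
  have hside := isPreconnected_iff_subset_of_disjoint.mp hA U V hU hV (hAsub.trans hUV) (by
    rw [eq_empty_iff_forall_notMem] at hdisj ⊢
    intro x hx
    exact hdisj x ⟨hAsub hx.1, hx.2⟩)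
  have main : ∀ U V : Set (Sp d), IsOpen U → IsOpen V → Ω \ closedBall x0 r ⊆ U ∪ V →
      (Ω \ closedBall x0 r) ∩ (U ∩ V) = ∅ → ball x0 R \ closedBall x0 r ⊆ U →
      Ω \ closedBall x0 r ⊆ U := by
    intro U V hU hV hUV hdisj hAU
    have hU' : IsOpen ((U ∩ (Ω \ closedBall x0 r)) ∪ ball x0 R) := (hU.inter hopen).union isOpen_ball
    have hV' : IsOpen (V ∩ (Ω \ closedBall x0 r)) := hV.inter hopen
    have hcov : Ω ⊆ ((U ∩ (Ω \ closedBall x0 r)) ∪ ball x0 R) ∪ (V ∩ (Ω \ closedBall x0 r)) := by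
      intro x hx
      by_cases hxr : x ∈ closedBall x0 r
      · left; right
        rw [mem_closedBall] at hxr
        rw [mem_ball]
        linarith
      · rcases hUV ⟨hx, hxr⟩ with hxU | hxV
        · left; left; exact ⟨hxU, hx, hxr⟩
        · right; exact ⟨hxV, hx, hxr⟩
    have hd2 : Ω ∩ (((U ∩ (Ω \ closedBall x0 r)) ∪ ball x0 R) ∩ (V ∩ (Ω \ closedBall x0 r))) = ∅ := by
      rw [eq_empty_iff_forall_notMem]
      rintro x ⟨hx, hx1, hx2⟩
      rw [eq_empty_iff_forall_notMem] at hdisj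
      rcases hx1 with hx1 | hx1
      · exact hdisj x ⟨hx1.2, hx1.1, hx2.1⟩
      · exact hdisj x ⟨hx2.2, hAU ⟨hx1, hx2.2.2⟩, hx2.1⟩
    rcases isPreconnected_iff_subset_of_disjoint.mp hc _ _ hU' hV' hcov hd2 with h1 | h1
    · intro x hx
      rcases h1 hx.1 with h2 | h2
      · exact h2.1
      · exact hAU ⟨h2, hx.2⟩
    · exfalso
      have : x0 ∈ V ∩ (Ω \ closedBall x0 r) := h1 (h (mem_ball_self (hr.trans hrR)))
      exact this.2.2 (mem_closedBall_self hr.le)
  rcases hside with h1 | h1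
  · left
    exact main U V hU hV hUV hdisj h1
  · right
    exact main V U hV hU (by rwa [union_comm]) (by rwa [inter_comm V U]) h1

/-- two different obstacles with connected complement -/
theorem exists_obstacles (hd : 2 ≤ d) {Ω : Set (Sp d)} (hΩ : Domain Ω) :
    ∃ D₁ D₂ : Set (Sp d), Obstacle Ω D₁ ∧ Obstacle Ω D₂ ∧ D₁ ≠ D₂ ∧
      IsConnected (Ω \ closure D₁) ∧ IsConnected (Ω \ closure D₂) := by
  obtain ⟨x0, hx0⟩ := hΩ.connected.nonempty
  obtain ⟨R, hR, hRs⟩ := Metric.isOpen_iff.mp hΩ.isOpen x0 hx0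
  have e1 : closedBall x0 (R/2) ⊆ Ω := (closedBall_subset_ball (by linarith)).trans hRs
  have e2 : closedBall x0 (R/4) ⊆ Ω := (closedBall_subset_ball (by linarith)).trans hRs
  refine ⟨ball x0 (R/2), ball x0 (R/4), ball_obstacle x0 (by linarith) e1,
    ball_obstacle x0 (by linarith) e2, ?_, ?_, ?_⟩
  · intro h
    have : Nontrivial (Sp d) := by
      have := rank_gt hd
      exact rank_pos_iff_nontrivial.mp (lt_trans zero_lt_one this)
    obtain ⟨v, hv⟩ := exists_norm_eq (Sp d) (by linarith : (0:ℝ) ≤ R/4)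
    have h1 : x0 + v ∈ ball x0 (R/2) := by
      rw [mem_ball, dist_eq_norm, add_sub_cancel_left, hv]
      linarith
    rw [h, mem_ball, dist_eq_norm, add_sub_cancel_left, hv] at h1
    exact lt_irrefl _ h1
  · rw [closure_ball x0 (by linarith : (R/2) ≠ 0)]
    exact compl_ball_conn hd hΩ.isOpen hΩ.connected.isPreconnected x0 (by linarith)
      (by linarith : R/2 < R) hRs
  · rw [closure_ball x0 (by linarith : (R/4) ≠ 0)]
    exact compl_ball_conn hd hΩ.isOpen hΩ.connected.isPreconnected x0 (by linarith)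
      (by linarith : R/4 < R) hRs

/-- the closures of two obstacles do not cover `Ω` -/
theorem exists_free_ball (hd : 2 ≤ d) {Ω D₁ D₂ : Set (Sp d)} (hΩ : Domain Ω) (h1 : closure D₁ ⊆ Ω)
    (h2 : closure D₂ ⊆ Ω) : ∃ x0 : Sp d, ∃ r : ℝ, 0 < r ∧ closedBall x0 r ⊆ Ω \ (closure D₁ ∪ closure D₂) := by
  have hne : (Ω \ (closure D₁ ∪ closure D₂)).Nonempty := by
    by_contra hcon
    rw [not_nonempty_iff_eq_empty, sdiff_eq_empty] at hcon
    have heq : Ω = closure D₁ ∪ closure D₂ := Subset.antisymm hcon (union_subset h1 h2)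
    have hcl : IsClosed Ω := by
      rw [heq]
      exact isClosed_closure.union isClosed_closure
    have hclopen : IsClopen Ω := ⟨hcl, hΩ.isOpen⟩
    rcases isClopen_iff.mp hclopen with h | h
    · exact hΩ.connected.nonempty.ne_empty h
    · have : Nontrivial (Sp d) := by
        have := rank_gt hd
        exact rank_pos_iff_nontrivial.mp (lt_trans zero_lt_one this)
      have hb := hΩ.bounded
      rw [h] at hb
      exact NormedSpace.unbounded_univ ℝ (Sp d) hb
  obtain ⟨x0, hx0⟩ := hne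
  have hop : IsOpen (Ω \ (closure D₁ ∪ closure D₂)) :=
    hΩ.isOpen.sdiff (isClosed_closure.union isClosed_closure)
  obtain ⟨R, hR, hRs⟩ := Metric.isOpen_iff.mp hop x0 hx0
  exact ⟨x0, R/2, by linarith, (closedBall_subset_ball (by linarith)).trans hRs⟩

end Oldroyd
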