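import Pool.Agent.Helper20.Oldroyd.Flow
import Pool.Agent.Helper20.Oldroyd.Geo

/-!
The source of the compactly supported flow satisfies the hypotheses.
-/

set_option autoImplicit false

noncomputable section

namespace Oldroyd

open Set MeasureTheory Filter Topology Metric
open scoped ContDiff

variable {d : ℕ}

/-- products of a bounded function of time and a bounded continuous field are in `L²` -/
theorem memLp_prod {Ω : Set (Sp d)} (hb : Bornology.IsBounded Ω) {s t : ℝ} {c : ℝ → ℝ} {v : Sp d → Sp d}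
    (hc : Measurable c) (hv : Continuous v) {C C' : ℝ} (hcb : ∀ r ∈ Ioo s t, |c r| ≤ C)
    (hvb : ∀ x, ‖v x‖ ≤ C') :
    MemLp (fun z : ℝ × Sp d => c z.1 • v z.2) 2
      ((volume.restrict (Ioo s t)).prod (volume.restrict Ω)) := by
  have : IsFiniteMeasure (volume.restrict Ω) := ⟨by
    rw [Measure.restrict_apply_univ]
    exact hb.measure_lt_top⟩
  have : IsFiniteMeasure ((volume : Measure ℝ).restrict (Ioo s t)) := ⟨by
    rw [Measure.restrict_apply_univ]
    exact measure_Ioo_lt_top⟩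
  have hmeas : Measurable (fun z : ℝ × Sp d => c z.1 • v z.2) :=
    (hc.comp measurable_fst).smul (hv.measurable.comp measurable_snd)
  apply MemLp.of_bound hmeas.aestronglyMeasurable (C * C')
  have h1 : ∀ᵐ z ∂((volume.restrict (Ioo s t)).prod (volume.restrict Ω)), z.1 ∈ Ioo s t := by
    have := Measure.quasiMeasurePreserving_fst (μ := (volume : Measure ℝ).restrict (Ioo s t))
      (ν := volume.restrict Ω)
    exact this.ae (ae_restrict_mem measurableSet_Ioo)
  filter_upwards [h1] with z hz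
  rw [norm_smul, Real.norm_eq_abs]
  have h2 := hcb z.1 hz
  exact mul_le_mul h2 (hvb z.2) (norm_nonneg _) ((abs_nonneg _).trans h2)

theorem bounded_of_supp {v : Sp d → Sp d} (hv : Continuous v) {K : Set (Sp d)} (hK : IsCompact K)
    (h : ∀ x, x ∉ K → v x = 0) : ∃ C, ∀ x, ‖v x‖ ≤ C := by
  obtain ⟨C, hC⟩ := hK.exists_bound_of_continuousOn hv.continuousOn
  refine ⟨max C 0, fun x => ?_⟩
  by_cases hx : x ∈ K
  · exact (hC x hx).trans (le_max_left _ _)
  · rw [h x hx, norm_zero]
    exact le_max_right _ _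

theorem bounded_of_cont {c : ℝ → ℝ} (hc : Continuous c) (s t : ℝ) : ∃ C, ∀ r ∈ Ioo s t, |c r| ≤ C := by
  obtain ⟨C, hC⟩ := (isCompact_Icc (a := s) (b := t)).exists_bound_of_continuousOn hc.continuousOn
  exact ⟨C, fun r hr => hC r (Ioo_subset_Icc_self hr)⟩

/-- unit step at `t1` -/
def stp (t1 t : ℝ) : ℝ := if t1 ≤ t then 1 else 0

theorem stp_meas (t1 : ℝ) : Measurable (stp t1) := by
  unfold stp
  exact Measurable.ite measurableSet_Ici measurable_const measurable_const

theorem stp_le (t1 t : ℝ) : |stp t1 t| ≤ 1 := by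
  unfold stp
  split_ifs <;> simp

theorem stp_int (t1 s t : ℝ) : IntervalIntegrable (stp t1) volume s t := by
  rw [intervalIntegrable_iff]
  apply Measure.integrableOn_of_bounded (M := 1)
  · unfold uIoc
    exact measure_Ioc_lt_top.ne
  · exact (stp_meas t1).aestronglyMeasurable
  · exact Eventually.of_forall fun r => stp_le t1 r

theorem stp_integral (t1 : ℝ) {s t : ℝ} (hst : s ≤ t) :
    ∫ r in s..t, stp t1 r = max (t - t1) 0 - max (s - t1) 0 := by
  apply intervalIntegral.integral_eq_sub_of_hasDeriv_right_of_le hst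
  · fun_prop
  · intro r _
    unfold stp
    by_cases h : t1 ≤ r
    · rw [if_pos h]
      have h1 : HasDerivWithinAt (fun y : ℝ => y - t1) 1 (Ioi r) r :=
        ((hasDerivAt_id r).sub_const t1).hasDerivWithinAt
      refine h1.congr (fun y hy => ?_) ?_
      · exact max_eq_left (by have : r < y := hy; linarith)
      · exact max_eq_left (by linarith)
    · rw [if_neg h]
      push Not at h
      have h1 : (fun y : ℝ => max (y - t1) 0) =ᶠ[𝓝 r] fun _ => 0 := by
        filter_upwards [Iio_mem_nhds h] with y hy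
        have hy' : y < t1 := hy
        exact max_eq_right (by linarith)
      exact ((hasDerivAt_const r (0:ℝ)).congr_of_eventuallyEq h1).hasDerivWithinAt
  · exact stp_int t1 s t

variable {ν α β t1 : ℝ}

/-- derivative of the coefficient `rem` -/
def remd (ν α β t1 : ℝ) (M : ℕ) (t : ℝ) : ℝ :=
  ν * (ν * phi ν α β t1 M t + β * Mem α (phi ν α β t1 M) t) +
    β * (phi ν α β t1 (M+1) t - α * Mem α (phi ν α β t1 (M+1)) t)

theorem rem_cont (M : ℕ) : Continuous (rem ν α β t1 M) := by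
  unfold rem
  exact ((phi_cont M).const_mul ν).add ((Mem_cont α (phi_cont M)).const_mul β)

theorem remd_cont (M : ℕ) : Continuous (remd ν α β t1 M) := by
  unfold remd
  exact ((((phi_cont M).const_mul ν).add ((Mem_cont α (phi_cont M)).const_mul β)).const_mul ν).add
    (((phi_cont (M+1)).sub ((Mem_cont α (phi_cont (M+1))).const_mul α)).const_mul β)

theorem rem_deriv (M : ℕ) (t : ℝ) : HasDerivAt (rem ν α β t1 (M+1)) (remd ν α β t1 M t) t := by
  unfold rem remd
  exact ((phi_deriv_succ M t).const_mul ν).add ((Mem_deriv α (phi_cont (M+1)) t).const_mul β)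

theorem remd_zero (h1 : 0 < t1) (M : ℕ) {t : ℝ} (ht : t ≤ t1) : remd ν α β t1 M t = 0 := by
  unfold remd
  rw [phi_zero_of_le h1 M ht, phi_zero_of_le h1 (M+1) ht,
    Mem_zero α h1 (fun r hr => phi_zero_of_le h1 M hr) ht,
    Mem_zero α h1 (fun r hr => phi_zero_of_le h1 (M+1) hr) ht]
  ring

theorem remd_bound (hν : 0 ≤ ν) (hα : 0 ≤ α) (hβ : 0 ≤ β) (h1 : 0 < t1) (T : ℝ) (hT : t1 ≤ T)
    (M : ℕ) : ∃ C, 0 ≤ C ∧ ∀ t, t1 ≤ t → t ≤ T → |remd ν α β t1 M t| ≤ C * (t - t1)^M := by
  obtain ⟨C, hC, hb⟩ := phi_bound hν hα hβ h1 T hT M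
  obtain ⟨C', hC', hb'⟩ := phi_bound hν hα hβ h1 T hT (M+1)
  have hTT : 0 ≤ T - t1 := by linarith
  have m1 : ∀ t, t1 ≤ t → t ≤ T → |Mem α (phi ν α β t1 M) t| ≤ C * (t - t1)^(M+2+1) :=
    fun t h2 h3 => Mem_bound hα (phi_cont M) h1 (M+2) (fun s hs => phi_zero_of_le h1 M hs) h2 hC
      (fun s hs1 hs2 => hb s hs1 (hs2.trans h3))
  have m2 : ∀ t, t1 ≤ t → t ≤ T → |Mem α (phi ν α β t1 (M+1)) t| ≤ C' * (t - t1)^(M+1+2+1) :=
    fun t h2 h3 => Mem_bound hα (phi_cont (M+1)) h1 (M+1+2)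
      (fun s hs => phi_zero_of_le h1 (M+1) hs) h2 hC' (fun s hs1 hs2 => hb' s hs1 (hs2.trans h3))
  have hpow : ∀ t, t1 ≤ t → t ≤ T → ∀ j : ℕ, (t - t1)^(M+j) ≤ (t - t1)^M * (T - t1)^j := by
    intro t h2 h3 j
    rw [pow_add]
    exact mul_le_mul_of_nonneg_left (pow_le_pow_left₀ (by linarith) (by linarith) j)
      (pow_nonneg (by linarith) M)
  refine ⟨ν * (ν * (C * (T-t1)^2) + β * (C * (T-t1)^3)) +
    β * (C' * (T-t1)^3 + α * (C' * (T-t1)^4)), by positivity, fun t h2 h3 => ?_⟩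
  have p2 := hpow t h2 h3 2
  have p3 := hpow t h2 h3 3
  have p4 := hpow t h2 h3 4
  have a1 : |phi ν α β t1 M t| ≤ (C * (T-t1)^2) * (t - t1)^M := by
    have := mul_le_mul_of_nonneg_left p2 hC
    have := hb t h2 h3
    linarith
  have a2 : |Mem α (phi ν α β t1 M) t| ≤ (C * (T-t1)^3) * (t - t1)^M := by
    have := mul_le_mul_of_nonneg_left p3 hC
    have := m1 t h2 h3
    have e : M + 2 + 1 = M + 3 := rfl
    rw [e] at this
    linarith
  have a3 : |phi ν α β t1 (M+1) t| ≤ (C' * (T-t1)^3) * (t - t1)^M := by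
    have := mul_le_mul_of_nonneg_left p3 hC'
    have := hb' t h2 h3
    have e : M + 1 + 2 = M + 3 := by ring
    rw [e] at this
    linarith
  have a4 : |Mem α (phi ν α β t1 (M+1)) t| ≤ (C' * (T-t1)^4) * (t - t1)^M := by
    have := mul_le_mul_of_nonneg_left p4 hC'
    have := m2 t h2 h3
    have e : M + 1 + 2 + 1 = M + 4 := by ring
    rw [e] at this
    linarith
  unfold remd
  calc |ν * (ν * phi ν α β t1 M t + β * Mem α (phi ν α β t1 M) t) +
        β * (phi ν α β t1 (M+1) t - α * Mem α (phi ν α β t1 (M+1)) t)|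
      ≤ ν * (ν * |phi ν α β t1 M t| + β * |Mem α (phi ν α β t1 M) t|) +
        β * (|phi ν α β t1 (M+1) t| + α * |Mem α (phi ν α β t1 (M+1)) t|) := by
        refine (abs_add_le _ _).trans (add_le_add ?_ ?_)
        · rw [abs_mul, abs_of_nonneg hν]
          refine mul_le_mul_of_nonneg_left ((abs_add_le _ _).trans ?_) hν
          rw [abs_mul, abs_mul, abs_of_nonneg hν, abs_of_nonneg hβ]
        · rw [abs_mul, abs_of_nonneg hβ]
          refine mul_le_mul_of_nonneg_left ((abs_sub _ _).trans ?_) hβ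
          rw [abs_mul, abs_of_nonneg hα]
    _ ≤ ν * (ν * ((C * (T-t1)^2) * (t - t1)^M) + β * ((C * (T-t1)^3) * (t - t1)^M)) +
        β * ((C' * (T-t1)^3) * (t - t1)^M + α * ((C' * (T-t1)^4) * (t - t1)^M)) := by
        gcongr
    _ = _ := by ring

end Oldroyd
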